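import Mathlib

/-! Agreement theorem, part A: elementary lemmas. -/

set_option autoImplicit false
set_option linter.unusedSectionVars false

open Finset
open scoped BigOperators ComplexConjugate

namespace Pool.Agent.MP_154433_an.T7W.Ag

/-- probability weights -/
structure PW {α : Type} [Fintype α] (w : α → ℝ) : Prop where
  nn : ∀ a, 0 ≤ w a
  one : ∑ a, w a = 1

lemma jen {α : Type} (s : Finset α) {w : α → ℝ} (h0 : ∀ a, 0 ≤ w a) (f : α → ℝ) :
    (∑ a ∈ s, w a * f a) ^ 2 ≤ (∑ a ∈ s, w a) * ∑ a ∈ s, w a * f a ^ 2 :=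
  sum_sq_le_sum_mul_sum_of_sq_le_mul s (fun a _ => h0 a)
    (fun a _ => mul_nonneg (h0 a) (sq_nonneg _)) fun a _ => le_of_eq (by ring)

lemma PW.jen {α : Type} [Fintype α] {w : α → ℝ} (h : PW w) (f : α → ℝ) :
    (∑ a, w a * f a) ^ 2 ≤ ∑ a, w a * f a ^ 2 := by
  have := Ag.jen univ h.nn f
  rwa [h.one, one_mul] at this

lemma PW.norm_le {α : Type} [Fintype α] {w : α → ℝ} (h : PW w) (f : α → ℂ) :
    ‖∑ a, (w a : ℂ) * f a‖ ≤ ∑ a, w a * ‖f a‖ :=
  (norm_sum_le _ _).trans (le_of_eq (sum_congr rfl fun a _ => by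
    rw [norm_mul, Complex.norm_real, Real.norm_of_nonneg (h.nn a)]))

lemma PW.le_of {α : Type} [Fintype α] {w : α → ℝ} (h : PW w) {f : α → ℝ} {c : ℝ}
    (hf : ∀ a, f a ≤ c) : ∑ a, w a * f a ≤ c := by
  calc ∑ a, w a * f a ≤ ∑ a, w a * c := sum_le_sum fun a _ => mul_le_mul_of_nonneg_left (hf a) (h.nn a)
    _ = c := by rw [← sum_mul, h.one, one_mul]

lemma PW.norm_le_one {α : Type} [Fintype α] {w : α → ℝ} (h : PW w) {f : α → ℂ}
    (hf : ∀ a, ‖f a‖ ≤ 1) : ‖∑ a, (w a : ℂ) * f a‖ ≤ 1 := (h.norm_le f).trans (h.le_of hf)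

lemma PW.exists_ge {α : Type} [Fintype α] {w : α → ℝ} (h : PW w) (f : α → ℝ) :
    ∃ a, ∑ b, w b * f b ≤ f a := by
  have : Nonempty α := by
    by_contra hc
    have := h.one
    rw [not_nonempty_iff] at hc
    simp at this
  obtain ⟨a, -, ha⟩ := exists_max_image univ f univ_nonempty
  exact ⟨a, h.le_of fun b => ha b (mem_univ _)⟩

lemma PW.prod {α β : Type} [Fintype α] [Fintype β] {w : α → ℝ} {v : β → ℝ} (h : PW w) (h' : PW v) :
    PW fun x : α × β => w x.1 * v x.2 :=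
  ⟨fun x => mul_nonneg (h.nn _) (h'.nn _), by
    rw [Fintype.sum_prod_type]
    simp only [← mul_sum, h'.one, mul_one, h.one]⟩

lemma sq_eq (z : ℂ) : ‖z‖ ^ 2 = ‖z * conj z‖ := by rw [norm_mul, Complex.norm_conj, sq]

lemma sq_cast (z : ℂ) : ((‖z‖ ^ 2 : ℝ) : ℂ) = z * conj z := by
  rw [Complex.mul_conj']
  push_cast
  rfl

lemma exists_sign (z : ℂ) : ∃ ε : ℂ, ‖ε‖ ≤ 1 ∧ ε * z = (‖z‖ : ℂ) := by
  by_cases h : z = 0
  · exact ⟨1, by simp, by simp [h]⟩
  · have h1 : (‖z‖ : ℂ) ≠ 0 := by exact_mod_cast norm_ne_zero_iff.2 h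
    refine ⟨conj z / ‖z‖, ?_, ?_⟩
    · rw [norm_div, Complex.norm_conj, Complex.norm_real, norm_norm,
        div_self (norm_ne_zero_iff.2 h)]
    · rw [div_mul_eq_mul_div, mul_comm, Complex.mul_conj', div_eq_iff h1, sq]

/-- short lists are covered by finitely many selections -/
lemma list {X Θ : Type} [Nonempty Θ] (P : X → Finset Θ) (L : ℕ) :
    ∃ f : Fin L → X → Θ, ∀ x, (P x).card ≤ L → ∀ θ ∈ P x, ∃ i, f i x = θ := by
  classical
  have : ∀ x, ∃ g : Fin L → Θ, (P x).card ≤ L → ∀ θ ∈ P x, ∃ i, g i = θ := by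
    intro x
    refine ⟨fun i => (P x).toList.getD i (Classical.arbitrary Θ), fun h θ hθ => ?_⟩
    obtain ⟨n, hn, rfl⟩ := List.mem_iff_getElem.1 (mem_toList.2 hθ)
    refine ⟨⟨n, (hn.trans_eq (length_toList _)).trans_le h⟩, ?_⟩
    simp only [List.getD_eq_getElem _ _ hn]
  choose g hg using this
  exact ⟨fun i x => g x i, hg⟩

/-- pigeonhole on the index of a list -/
lemma pig {α : Type} [Fintype α] (w : α → ℝ) (h0 : ∀ a, 0 ≤ w a) {L : ℕ} (hL : 0 < L)
    (Q : α → Prop) [DecidablePred Q] (R : Fin L → α → Prop) [∀ i, DecidablePred (R i)]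
    (h : ∀ a, Q a → ∃ i, R i a) :
    ∃ i, ∑ a, w a * (if Q a then 1 else 0) ≤ L * ∑ a, w a * (if R i a then 1 else 0) := by
  have : Nonempty (Fin L) := ⟨⟨0, hL⟩⟩
  obtain ⟨i, -, hi⟩ := exists_max_image univ
    (fun i => ∑ a, w a * (if R i a then (1 : ℝ) else 0)) univ_nonempty
  refine ⟨i, ?_⟩
  calc ∑ a, w a * (if Q a then 1 else 0)
      ≤ ∑ a, w a * ∑ j, (if R j a then (1 : ℝ) else 0) := by
        refine sum_le_sum fun a _ => mul_le_mul_of_nonneg_left ?_ (h0 a)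
        by_cases hq : Q a
        · obtain ⟨j, hj⟩ := h a hq
          rw [if_pos hq]
          refine le_trans (le_of_eq (if_pos hj).symm) (single_le_sum
            (f := fun j => if R j a then (1 : ℝ) else 0) (fun j _ => ?_) (mem_univ j))
          split_ifs <;> norm_num
        · rw [if_neg hq]
          exact sum_nonneg fun j _ => by split_ifs <;> norm_num
    _ = ∑ j, ∑ a, w a * (if R j a then (1 : ℝ) else 0) := by
        simp only [mul_sum]
        exact sum_comm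
    _ ≤ ∑ _j : Fin L, ∑ a, w a * (if R i a then (1 : ℝ) else 0) :=
        sum_le_sum fun j _ => hi j (mem_univ _)
    _ = _ := by rw [sum_const, card_univ, Fintype.card_fin, nsmul_eq_mul]

/-- a subfamily all of whose parts have a large sum -/
lemma maxX {E ι : Type} [NormedAddCommGroup E] [InnerProductSpace ℂ E] [DecidableEq ι]
    (v : ι → E) (Y0 : Finset ι) {κ : ℝ} (hκ : 0 ≤ κ) :
    ∃ X ⊆ Y0, ‖∑ y ∈ Y0, v y‖ ^ 2 - 2 * κ * Y0.card ≤ ‖∑ y ∈ X, v y‖ ^ 2 ∧
      ∀ Y ⊆ X, κ * Y.card ≤ ‖∑ y ∈ Y, v y‖ * ‖∑ y ∈ X, v y‖ := by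
  obtain ⟨X, hX, hm⟩ := exists_max_image Y0.powerset
    (fun X => ‖∑ y ∈ X, v y‖ ^ 2 - 2 * κ * X.card) ⟨∅, empty_mem_powerset _⟩
  have hX' := mem_powerset.1 hX
  refine ⟨X, hX', ?_, fun Y hY => ?_⟩
  · have := hm Y0 (mem_powerset_self _)
    have h2 : 0 ≤ 2 * κ * X.card := by positivity
    linarith
  · have h1 : ∀ y ∈ X, κ ≤ RCLike.re (inner ℂ (v y) (∑ z ∈ X, v z)) := by
      intro y hy
      have a := hm (X.erase y) (mem_powerset.2 ((erase_subset _ _).trans hX'))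
      have e : ∑ z ∈ X.erase y, v z = ∑ z ∈ X, v z - v y := by
        rw [← add_sum_erase X v hy]
        abel
      have c : ((X.erase y).card : ℝ) = X.card - 1 := by
        rw [← card_erase_add_one hy]
        push_cast
        ring
      simp only [e, c] at a
      rw [norm_sub_sq (𝕜 := ℂ), inner_re_symm] at a
      have := sq_nonneg ‖v y‖
      linarith
    calc κ * Y.card = ∑ _y ∈ Y, κ := by rw [sum_const, nsmul_eq_mul, mul_comm]
      _ ≤ ∑ y ∈ Y, RCLike.re (inner ℂ (v y) (∑ z ∈ X, v z)) := sum_le_sum fun y hy => h1 y (hY hy)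
      _ = RCLike.re (inner ℂ (∑ y ∈ Y, v y) (∑ z ∈ X, v z)) := by rw [sum_inner, map_sum]
      _ ≤ _ := re_inner_le_norm _ _

section ring

variable {R : Type} [CommRing R] [Fintype R] [DecidableEq R] (ψ : AddChar R ℂ)

lemma nrm (x : R) : ‖ψ x‖ = 1 := AddChar.norm_apply ψ x

/-- the Fourier transform of the weights -/
noncomputable def ft (π : R → ℝ) (t : R) : ℂ := ∑ d, (π d : ℂ) * ψ (d * t)

/-- few frequencies are large -/
lemma peak {π : R → ℝ} (hπ : PW π) {k : ℕ} {B τ : ℝ} (hB : ∑ t, ‖ft ψ π t‖ ^ k ≤ B) (hτ : 0 < τ)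
    (f : R → ℂ) (hf : ∀ d, ‖f d‖ ≤ 1) (P : Finset R)
    (hP : ∀ a ∈ P, τ ≤ ‖∑ d, (π d : ℂ) * (f d * ψ (-(d * a)))‖) :
    (P.card : ℝ) ≤ 2 * B / ((τ ^ 2 / 2) ^ k * τ ^ 2) := by
  set η := τ ^ 2 / 2 with hη
  have η0 : 0 < η := by positivity
  have B0 : 0 ≤ B := le_trans (sum_nonneg fun t _ => by positivity) hB
  choose ε h1 h2 using fun a => exists_sign (∑ d, (π d : ℂ) * (f d * ψ (-(d * a))))
  let g : R → ℂ := fun d => ∑ a ∈ P, ε a * ψ (-(d * a))
  have s1 : P.card * τ ≤ ∑ d, π d * ‖g d‖ := by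
    calc P.card * τ = ∑ _a ∈ P, τ := by rw [sum_const, nsmul_eq_mul]
      _ ≤ ∑ a ∈ P, ‖∑ d, (π d : ℂ) * (f d * ψ (-(d * a)))‖ := sum_le_sum hP
      _ ≤ ‖((∑ a ∈ P, ‖∑ d, (π d : ℂ) * (f d * ψ (-(d * a)))‖ : ℝ) : ℂ)‖ := by
          rw [Complex.norm_real]
          exact le_abs_self _
      _ = ‖∑ d, (π d : ℂ) * (f d * g d)‖ := by
          congr 1
          push_cast
          simp only [← h2, g, mul_sum]
          rw [sum_comm]
          exact sum_congr rfl fun d _ => sum_congr rfl fun a _ => by ring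
      _ ≤ ∑ d, π d * ‖f d * g d‖ := hπ.norm_le _
      _ ≤ _ := sum_le_sum fun d _ => mul_le_mul_of_nonneg_left (by
          rw [norm_mul]
          exact mul_le_of_le_one_left (norm_nonneg _) (hf d)) (hπ.nn d)
  have s2 : ∑ d, π d * ‖g d‖ ^ 2 ≤ ∑ a ∈ P, ∑ b ∈ P, ‖ft ψ π (b - a)‖ := by
    calc ∑ d, π d * ‖g d‖ ^ 2 ≤ ‖((∑ d, π d * ‖g d‖ ^ 2 : ℝ) : ℂ)‖ := by
          rw [Complex.norm_real]
          exact le_abs_self _
      _ = ‖∑ a ∈ P, ∑ b ∈ P, ε a * conj (ε b) * ft ψ π (b - a)‖ := by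
          congr 1
          rw [Complex.ofReal_sum]
          simp only [Complex.ofReal_mul, sq_cast, g, map_sum, sum_mul_sum]
          simp only [ft, mul_sum]
          rw [sum_comm]
          refine sum_congr rfl fun a _ => ?_
          rw [sum_comm]
          refine sum_congr rfl fun b _ => sum_congr rfl fun d _ => ?_
          rw [map_mul, ← AddChar.map_neg_eq_conj, neg_neg, show d * (b - a) = -(d * a) + d * b by ring,
            AddChar.map_add_eq_mul]
          ring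
      _ ≤ _ := (norm_sum_le _ _).trans (sum_le_sum fun a _ => (norm_sum_le _ _).trans
          (sum_le_sum fun b _ => by
            rw [norm_mul, norm_mul, Complex.norm_conj]
            exact mul_le_of_le_one_left (norm_nonneg _) (mul_le_one₀ (h1 a) (norm_nonneg _) (h1 b))))
  have s3 : ∀ a, ∑ b ∈ P, ‖ft ψ π (b - a)‖ ≤ P.card * η + B / η ^ k := by
    intro a
    have p1 : ∀ t, ‖ft ψ π t‖ ≤ η + ‖ft ψ π t‖ ^ k / η ^ k := by
      intro t
      rcases le_total ‖ft ψ π t‖ η with h | h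
      · exact h.trans (le_add_of_nonneg_right (by positivity))
      · have a1 : ‖ft ψ π t‖ ≤ 1 := hπ.norm_le_one fun d => (nrm ψ _).le
        have a2 : 1 ≤ ‖ft ψ π t‖ ^ k / η ^ k := by
          rw [le_div_iff₀ (by positivity), one_mul]
          exact pow_le_pow_left₀ η0.le h k
        linarith
    calc ∑ b ∈ P, ‖ft ψ π (b - a)‖ ≤ ∑ b ∈ P, (η + ‖ft ψ π (b - a)‖ ^ k / η ^ k) :=
          sum_le_sum fun b _ => p1 _
      _ = P.card * η + (∑ b ∈ P, ‖ft ψ π (b - a)‖ ^ k) / η ^ k := by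
          rw [sum_add_distrib, sum_const, nsmul_eq_mul, sum_div]
      _ ≤ _ := by
          gcongr
          refine le_trans (sum_le_sum_of_subset_of_nonneg (subset_univ P)
            fun _ _ _ => by positivity) (le_trans (le_of_eq ?_) hB)
          exact Fintype.sum_equiv (Equiv.subRight a) _ _ fun b => rfl
  have s4 : (P.card * τ) ^ 2 ≤ P.card * (P.card * η + B / η ^ k) := by
    calc (P.card * τ) ^ 2 ≤ (∑ d, π d * ‖g d‖) ^ 2 := pow_le_pow_left₀ (by positivity) s1 2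
      _ ≤ _ := hπ.jen _
      _ ≤ _ := s2
      _ ≤ ∑ _a ∈ P, (P.card * η + B / η ^ k) := sum_le_sum fun a _ => s3 a
      _ = _ := by rw [sum_const, nsmul_eq_mul]
  rcases Nat.eq_zero_or_pos P.card with h | h
  · rw [h, Nat.cast_zero]
    positivity
  · have n0 : (0 : ℝ) < P.card := by exact_mod_cast h
    have s5 : P.card * τ ^ 2 ≤ P.card * η + B / η ^ k := by
      refine le_of_mul_le_mul_left ?_ n0
      calc P.card * (P.card * τ ^ 2) = (P.card * τ) ^ 2 := by ring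
        _ ≤ _ := s4
    have s6 : P.card * τ ^ 2 ≤ 2 * (B / η ^ k) := by
      rw [hη] at s5 ⊢
      linarith
    rw [le_div_iff₀ (by positivity)]
    calc P.card * (η ^ k * τ ^ 2) = P.card * τ ^ 2 * η ^ k := by ring
      _ ≤ 2 * (B / η ^ k) * η ^ k := by gcongr
      _ = 2 * B := by field_simp

end ring

end Pool.Agent.MP_154433_an.T7W.Ag
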