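import Mathlib
import Pool.Agent.MP_154433_an.t3s.Basic

/-! Uniform twisted averages along random sets of polynomial density: definitions. -/

set_option autoImplicit false
set_option linter.unusedVariables false

open MeasureTheory ProbabilityTheory Filter Topology Function
open scoped BigOperators ComplexConjugate

noncomputable section

namespace Pool.Agent.MP_154433_an.T7W

open T3S (B1 Wt ind yw)

section Fin

variable {p : ℕ} [NeZero p]

/-- the standard character of the residues -/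
def ec (t : ZMod p) : ℂ := ZMod.stdAddChar t

/-- the twisted form of a set of labels -/
def form (S : Finset (ZMod p)) (ρ G : ZMod p → ℂ) (θ : ZMod p → ZMod p) (H : ZMod p → ℂ) : ℂ :=
  𝔼 y, 𝔼 d ∈ S, ρ d * G y * ec (d * θ y) * H (y + d)

/-- the hypothesis on the set of labels -/
def Hyp (k : ℕ) (B : ℝ) (S : Finset (ZMod p)) : Prop :=
  ∑ t : ZMod p, ‖𝔼 d ∈ S, ec (d * t)‖ ^ k ≤ B

open Classical in
/-- a large form forces agreement with a member of the family on many points -/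
def Agr (S : Finset (ZMod p)) (δ c : ℝ) (𝓕 : Finset (ZMod p → ZMod p)) : Prop :=
  ∀ (ρ G : ZMod p → ℂ) (θ : ZMod p → ZMod p) (H : ZMod p → ℂ), B1 ρ → B1 G → B1 H →
    δ ≤ ‖form S ρ G θ H‖ →
    ∃ θ' ∈ 𝓕, c * p ≤ ((Finset.univ.filter fun y => G y ≠ 0 ∧ θ y = θ' y).card : ℝ)

/-- the twisted form of real weights on labels -/
def lin {ι : Type} [Fintype ι] (a : ι → ZMod p) (v : ι → ℝ) (G : ZMod p → ℂ)
    (θ : ZMod p → ZMod p) (H : ZMod p → ℂ) : ℂ :=
  𝔼 y, ∑ i, (v i : ℂ) * G y * ec (a i * θ y) * H (y + a i)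

def Bad {ι : Type} [Fintype ι] (a : ι → ZMod p) (v : ι → ℝ) (t : ℝ) : Prop :=
  ∃ (G : ZMod p → ℂ) (θ : ZMod p → ZMod p) (H : ZMod p → ℂ), B1 G ∧ B1 H ∧ t < ‖lin a v G θ H‖

end Fin

/-- the deterministic theorem -/
def AgreeS : Prop := ∀ (k : ℕ) (B δ : ℝ), 0 < δ → ∃ c C : ℝ, 0 < c ∧ 0 ≤ C ∧
  ∀ (p : ℕ) [NeZero p] (S : Finset (ZMod p)), S.Nonempty → Hyp k B S →
    ∃ 𝓕 : Finset (ZMod p → ZMod p),
      (𝓕.card : ℝ) ≤ Real.exp (C * (Real.log p + 1) ^ (k + 1)) ∧ Agr S δ c 𝓕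

section Prob

variable {ι : Type} [Fintype ι] [DecidableEq ι]

/-- product weights -/
def wt (s : ι → ℝ) (x : ι → Bool) : ℝ := ∏ i, if x i then s i else 1 - s i

open Classical in
/-- the probability of an event for the product weights -/
def Pr (s : ι → ℝ) (A : (ι → Bool) → Prop) : ℝ := ∑ x, wt s x * if A x then 1 else 0

open Classical in
/-- the proportion of sign vectors with a property -/
def Fr (A : (ι → Bool) → Prop) : ℝ := 𝔼 ξ : ι → Bool, if A ξ then (1 : ℝ) else 0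

omit [Fintype ι] [DecidableEq ι] in
def iv (x : ι → Bool) (i : ι) : ℝ := if x i then 1 else 0

omit [Fintype ι] [DecidableEq ι] in
def sg (ξ : ι → Bool) (i : ι) : ℝ := if ξ i then 1 else -1

end Prob

def ee (t : ℝ) : ℂ := Complex.exp (((2 * Real.pi * t : ℝ) : ℂ) * Complex.I)

/-- uniform smallness of the twisted averages -/
def UWZ (w : ℕ → ℕ → ℝ) : Prop := ∀ ε : ℝ, 0 < ε → ∀ᶠ M in atTop,
  ∀ (θ : ℕ → ℝ) (H : ℕ → ℂ), B1 H →
    ∑ n ∈ Finset.range M, ‖∑ d ∈ Finset.range M, (w M d : ℂ) * H (n + d) * ee (d * θ n)‖ ≤ ε * M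

/-- polynomial density -/
def Poly (σ : ℕ → ℝ) : Prop :=
  ∃ a : ℝ, a < 1 ∧ Tendsto (fun n : ℕ => (n : ℝ) ^ a * σ n) atTop atTop

/-- the theorem of this directory -/
def MainS : Prop := ∀ σ : ℕ → ℝ, (∀ n, 0 ≤ σ n ∧ σ n ≤ 1) → Antitone σ → Poly σ →
  ∀ (Ω : Type) [MeasurableSpace Ω] (P : Measure Ω) [IsProbabilityMeasure P] (E : ℕ → Set Ω),
  (∀ n, MeasurableSet (E n)) → iIndepSet E P → (∀ n, P (E n) = ENNReal.ofReal (σ n)) →
  ∀ᵐ ω ∂P, UWZ (yw σ fun m => ω ∈ E m)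

end Pool.Agent.MP_154433_an.T7W

end
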