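import Pool.Agent.MP_154433_an.t7w.AgA

/-! Agreement theorem, part B: the rich set and the two Cauchy-Schwarz steps. -/

set_option autoImplicit false
set_option linter.unusedSectionVars false

open Finset
open scoped BigOperators ComplexConjugate

namespace Pool.Agent.MP_154433_an.T7W.Ag

variable {R : Type} [CommRing R] [Fintype R] [DecidableEq R] (ψ : AddChar R ℂ) (π : R → ℝ)
  (ρ : R → ℂ) (θ : R → R)

/-- the twisted averaging operator -/
noncomputable def op (h : R → ℂ) (t : R) : ℂ :=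
  ∑ d, (π d : ℂ) * (ρ d * h (t - d) * ψ (d * θ (t - d)))

def cut (G : R → ℂ) (Y : Finset R) : R → ℂ := fun y => if y ∈ Y then G y else 0

/-- every part of `X` has a large image -/
def Rich (G : R → ℂ) (κ : ℝ) (X : Finset R) : Prop :=
  ∀ Y ⊆ X, κ ^ 2 * (Y.card : ℝ) ^ 2 ≤ Fintype.card R * ∑ t, ‖op ψ π ρ θ (cut G Y) t‖ ^ 2

variable {π ρ}

lemma contr (hπ : PW π) (hρ : ∀ d, ‖ρ d‖ ≤ 1) (h : R → ℂ) :
    ∑ t, ‖op ψ π ρ θ h t‖ ^ 2 ≤ ∑ y, ‖h y‖ ^ 2 := by
  calc ∑ t, ‖op ψ π ρ θ h t‖ ^ 2 ≤ ∑ t, ∑ d, π d * ‖h (t - d)‖ ^ 2 := by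
        refine sum_le_sum fun t _ => le_trans ?_ (hπ.jen fun d => ‖h (t - d)‖)
        refine pow_le_pow_left₀ (norm_nonneg _) ((hπ.norm_le _).trans (sum_le_sum fun d _ =>
          mul_le_mul_of_nonneg_left ?_ (hπ.nn d))) 2
        rw [norm_mul, norm_mul, nrm, mul_one]
        exact mul_le_of_le_one_left (norm_nonneg _) (hρ d)
    _ = ∑ d, π d * ∑ y, ‖h y‖ ^ 2 := by
        rw [sum_comm]
        refine sum_congr rfl fun d _ => ?_
        rw [← mul_sum]
        congr 1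
        exact Fintype.sum_equiv (Equiv.subRight d) _ _ fun b => rfl
    _ = _ := by rw [← sum_mul, hπ.one, one_mul]

lemma cut_sq {G : R → ℂ} (hG : ∀ y, ‖G y‖ ≤ 1) (Y : Finset R) :
    ∑ y, ‖cut G Y y‖ ^ 2 ≤ Y.card := by
  calc ∑ y, ‖cut G Y y‖ ^ 2 ≤ ∑ y, if y ∈ Y then (1 : ℝ) else 0 := sum_le_sum fun y _ => by
        unfold cut
        split_ifs
        · exact pow_le_one₀ (norm_nonneg _) (hG y)
        · simp
    _ = _ := by simp

lemma rich (hπ : PW π) (hρ : ∀ d, ‖ρ d‖ ≤ 1) {G H : R → ℂ} (hG : ∀ y, ‖G y‖ ≤ 1)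
    (hH : ∀ y, ‖H y‖ ≤ 1) {δ : ℝ} (hδ : 0 < δ)
    (h : δ * Fintype.card R ≤ ‖∑ y, ∑ d, (π d : ℂ) * (ρ d * G y * ψ (d * θ y) * H (y + d))‖) :
    ∃ X : Finset R, (∀ y ∈ X, G y ≠ 0) ∧ δ ^ 2 / 2 * Fintype.card R ≤ X.card ∧
      Rich ψ π ρ θ G (δ ^ 2 / 4) X := by
  have n0 : (0 : ℝ) < Fintype.card R := by exact_mod_cast Fintype.card_pos
  let v : R → EuclideanSpace ℂ R := fun y => WithLp.toLp 2 (op ψ π ρ θ (cut G {y}))
  have hv : ∀ Y : Finset R, ‖∑ y ∈ Y, v y‖ ^ 2 = ∑ t, ‖op ψ π ρ θ (cut G Y) t‖ ^ 2 := by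
    intro Y
    rw [EuclideanSpace.norm_sq_eq]
    refine sum_congr rfl fun t _ => ?_
    congr 2
    simp only [v, WithLp.ofLp_sum, Finset.sum_apply, op]
    rw [sum_comm]
    refine sum_congr rfl fun d _ => ?_
    rw [← mul_sum, ← sum_mul, ← mul_sum]
    congr 3
    simp only [cut, mem_singleton]
    rw [sum_ite_eq]
  have e1 : ∑ y, ∑ d, (π d : ℂ) * (ρ d * G y * ψ (d * θ y) * H (y + d)) =
      ∑ t, op ψ π ρ θ G t * H t := by
    simp only [op, sum_mul]
    rw [sum_comm]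
    conv_rhs => rw [sum_comm]
    refine sum_congr rfl fun d _ => Fintype.sum_equiv (Equiv.addRight d) _ _ fun y => ?_
    simp only [Equiv.coe_addRight, add_sub_cancel_right]
    ring
  have e2 : cut G (univ.filter fun y => G y ≠ 0) = G := by
    funext y
    by_cases hy : G y = 0 <;> simp [cut, hy]
  have e3 : δ ^ 2 * Fintype.card R ≤ ∑ t, ‖op ψ π ρ θ G t‖ ^ 2 := by
    have a1 : δ * Fintype.card R ≤ ∑ t, ‖op ψ π ρ θ G t‖ := by
      rw [e1] at h
      refine h.trans ((norm_sum_le _ _).trans (sum_le_sum fun t _ => ?_))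
      rw [norm_mul]
      exact mul_le_of_le_one_right (norm_nonneg _) (hH t)
    have a2 := sq_sum_le_card_mul_sum_sq (s := univ) (f := fun t => ‖op ψ π ρ θ G t‖)
    rw [card_univ] at a2
    refine le_of_mul_le_mul_left ?_ n0
    calc Fintype.card R * (δ ^ 2 * Fintype.card R) = (δ * Fintype.card R) ^ 2 := by ring
      _ ≤ _ := pow_le_pow_left₀ (by positivity) a1 2
      _ ≤ _ := a2
  obtain ⟨X, hX, h1, h2⟩ := maxX v (univ.filter fun y => G y ≠ 0) (κ := δ ^ 2 / 4) (by positivity)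
  have cX : ∀ Y : Finset R, (Y.card : ℝ) ≤ Fintype.card R := fun Y => by
    exact_mod_cast card_le_univ Y
  have h3 : ‖∑ y ∈ X, v y‖ ^ 2 ≤ X.card := by
    rw [hv]
    exact (contr ψ θ hπ hρ _).trans (cut_sq hG X)
  refine ⟨X, fun y hy => (mem_filter.1 (hX hy)).2, ?_, fun Y hY => ?_⟩
  · rw [hv, e2] at h1
    have := mul_le_mul_of_nonneg_left (cX (univ.filter fun y => G y ≠ 0))
      (show 0 ≤ 2 * (δ ^ 2 / 4) by positivity)
    linarith
  · rw [← hv]
    calc (δ ^ 2 / 4) ^ 2 * (Y.card : ℝ) ^ 2 = (δ ^ 2 / 4 * Y.card) ^ 2 := by ring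
      _ ≤ (‖∑ y ∈ Y, v y‖ * ‖∑ y ∈ X, v y‖) ^ 2 := pow_le_pow_left₀ (by positivity) (h2 Y hY) 2
      _ = ‖∑ y ∈ X, v y‖ ^ 2 * ‖∑ y ∈ Y, v y‖ ^ 2 := by ring
      _ ≤ _ := mul_le_mul_of_nonneg_right (h3.trans (cX X)) (by positivity)

/-- the indicator of a correct prediction -/
def ok (X : Finset R) (σ : R) (θ' : R → R) (w : R) : ℝ :=
  if w + σ ∈ X ∧ θ (w + σ) = θ' w then 1 else 0

lemma ok_nn (X : Finset R) (σ : R) (θ' : R → R) (w : R) : 0 ≤ ok θ X σ θ' w := by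
  unfold ok
  split_ifs <;> norm_num

/-- the transform whose peaks predict -/
noncomputable def tr (π : R → ℝ) (θ' : R → R) (w u a : R) : ℂ :=
  ∑ d, (π d : ℂ) * (ψ (u * θ' (w + d)) * ψ (-(d * a)))

lemma one (hπ : PW π) (hρ : ∀ d, ‖ρ d‖ ≤ 1) {G : R → ℂ} (hG : ∀ y, ‖G y‖ ≤ 1) {κ : ℝ}
    {X : Finset R} (hX : Rich ψ π ρ θ G κ X) (σ : R) (θ' : R → R) :
    κ ^ 4 * (∑ w, ok θ X σ θ' w) ^ 4 ≤ (Fintype.card R : ℝ) ^ 3 * ∑ w, ∑ s', π s' * ∑ s, π s *
      (ok θ X σ θ' (w + s) * ‖tr ψ π θ' w (s - s') (θ (w + s + σ) - θ' (w + s'))‖) := by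
  have n0 : (0 : ℝ) < Fintype.card R := by exact_mod_cast Fintype.card_pos
  set Y : Finset R := univ.filter fun y => y ∈ X ∧ θ y = θ' (y - σ) with hY
  set h := cut G Y with hh
  have hY1 : (Y.card : ℝ) = ∑ w, ok θ X σ θ' w := by
    rw [hY, card_filter]
    push_cast
    refine (Fintype.sum_equiv (Equiv.addRight σ) _ _ fun w => ?_).symm
    simp only [ok, Equiv.coe_addRight, add_sub_cancel_right]
  have hb : ∀ w, ‖h (w + σ)‖ ≤ ok θ X σ θ' w := by
    intro w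
    simp only [hh, cut, ok, hY, mem_filter, mem_univ, true_and, add_sub_cancel_right]
    split_ifs
    · exact hG _
    · simp
  have o1 : ∀ w, ok θ X σ θ' w ≤ 1 := fun w => by
    unfold ok
    split_ifs <;> norm_num
  have hz : ∀ w, h (w + σ) ≠ 0 → θ (w + σ) = θ' w := by
    intro w hw
    by_contra hc
    apply hw
    simp [hh, cut, hY, hc]
  let α : R → R → ℂ := fun w s => ρ s * conj (h (w + s + σ))
  have hα : ∀ w s, ‖α w s‖ ≤ ok θ X σ θ' (w + s) := fun w s => by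
    simp only [α, norm_mul, Complex.norm_conj]
    exact (mul_le_of_le_one_left (norm_nonneg _) (hρ s)).trans (hb _)
  let K : R → R → ℂ := fun w d =>
    ∑ s, (π s : ℂ) * (α w s * (ψ (s * θ' (w + d)) * ψ (-(d * θ (w + s + σ)))))
  have s1 : ∑ t, ‖op ψ π ρ θ h t‖ ^ 2 ≤ ∑ w, ∑ d, π d * ‖K w d‖ := by
    calc ∑ t, ‖op ψ π ρ θ h t‖ ^ 2 ≤ ‖((∑ t, ‖op ψ π ρ θ h t‖ ^ 2 : ℝ) : ℂ)‖ := by
          rw [Complex.norm_real]
          exact le_abs_self _
      _ = ‖∑ w, ∑ d, (π d : ℂ) * (conj (ρ d) * h (w + d + σ) * K w d)‖ := by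
          congr 1
          rw [Complex.ofReal_sum]
          simp only [sq_cast, op, map_sum, sum_mul_sum]
          simp only [K, mul_sum]
          rw [sum_comm]
          conv_rhs => rw [sum_congr rfl fun w _ => sum_comm, sum_comm]
          refine sum_congr rfl fun s _ => ?_
          rw [sum_comm]
          conv_rhs => rw [sum_comm]
          refine sum_congr rfl fun d _ => ?_
          refine (Fintype.sum_equiv (Equiv.addRight (s + d + σ)) _ _ fun w => ?_).symm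
          simp only [Equiv.coe_addRight, α, map_mul, Complex.conj_ofReal,
            show w + (s + d + σ) - s = w + d + σ by ring,
            show w + (s + d + σ) - d = w + s + σ by ring, AddChar.map_neg_eq_conj]
          by_cases h0 : h (w + d + σ) = 0
          · simp [h0]
          · rw [hz _ h0]
            ring
      _ ≤ _ := (norm_sum_le _ _).trans (sum_le_sum fun w _ => (hπ.norm_le _).trans
          (sum_le_sum fun d _ => mul_le_mul_of_nonneg_left (by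
            rw [norm_mul, norm_mul, Complex.norm_conj]
            exact mul_le_of_le_one_left (norm_nonneg _)
              (mul_le_one₀ (hρ d) (norm_nonneg _) ((hb _).trans (o1 _)))) (hπ.nn d)))
  have s2 : ∀ w, ∑ d, π d * ‖K w d‖ ^ 2 ≤ ∑ s', π s' * ∑ s, π s *
      (ok θ X σ θ' (w + s) * ‖tr ψ π θ' w (s - s') (θ (w + s + σ) - θ' (w + s'))‖) := by
    intro w
    calc ∑ d, π d * ‖K w d‖ ^ 2 ≤ ‖((∑ d, π d * ‖K w d‖ ^ 2 : ℝ) : ℂ)‖ := by
          rw [Complex.norm_real]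
          exact le_abs_self _
      _ = ‖∑ s', (π s' : ℂ) * ∑ s, (π s : ℂ) * (α w s * conj (α w s') *
            tr ψ π θ' w (s - s') (θ (w + s + σ) - θ' (w + s')))‖ := by
          congr 1
          rw [Complex.ofReal_sum]
          simp only [Complex.ofReal_mul, sq_cast, K, map_sum, sum_mul_sum]
          simp only [tr, mul_sum]
          conv_rhs => rw [sum_comm]
          rw [sum_comm]
          refine sum_congr rfl fun s _ => ?_
          rw [sum_comm]
          refine sum_congr rfl fun s' _ => sum_congr rfl fun d _ => ?_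
          by_cases h0 : h (w + s' + σ) = 0
          · simp [α, h0]
          · rw [← hz _ h0]
            simp only [map_mul, Complex.conj_ofReal, ← AddChar.map_neg_eq_conj, neg_neg]
            rw [show (s - s') * θ' (w + d) = s * θ' (w + d) + -(s' * θ' (w + d)) by ring,
              show -(d * (θ (w + s + σ) - θ (w + s' + σ))) =
                -(d * θ (w + s + σ)) + d * θ (w + s' + σ) by ring,
              AddChar.map_add_eq_mul, AddChar.map_add_eq_mul]
            ring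
      _ ≤ _ := (hπ.norm_le _).trans (sum_le_sum fun s' _ => mul_le_mul_of_nonneg_left
          ((hπ.norm_le _).trans (sum_le_sum fun s _ => mul_le_mul_of_nonneg_left (by
            rw [norm_mul, norm_mul, Complex.norm_conj]
            exact mul_le_mul_of_nonneg_right ((mul_le_of_le_one_right (norm_nonneg _)
              ((hα w s').trans (o1 _))).trans (hα w s)) (norm_nonneg _)) (hπ.nn s))) (hπ.nn s'))
  have s3 : κ ^ 2 * (∑ w, ok θ X σ θ' w) ^ 2 ≤ Fintype.card R * ∑ w, ∑ d, π d * ‖K w d‖ := by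
    rw [← hY1]
    exact (hX Y fun y hy => (mem_filter.1 hy).2.1).trans (mul_le_mul_of_nonneg_left s1 n0.le)
  have s4 : (∑ w, ∑ d, π d * ‖K w d‖) ^ 2 ≤ Fintype.card R * ∑ w, ∑ d, π d * ‖K w d‖ ^ 2 := by
    have a2 := sq_sum_le_card_mul_sum_sq (s := univ) (f := fun w => ∑ d, π d * ‖K w d‖)
    rw [card_univ] at a2
    exact a2.trans (mul_le_mul_of_nonneg_left (sum_le_sum fun w _ => hπ.jen _) n0.le)
  calc κ ^ 4 * (∑ w, ok θ X σ θ' w) ^ 4 = (κ ^ 2 * (∑ w, ok θ X σ θ' w) ^ 2) ^ 2 := by ring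
    _ ≤ (Fintype.card R * ∑ w, ∑ d, π d * ‖K w d‖) ^ 2 := pow_le_pow_left₀ (by positivity) s3 2
    _ = (Fintype.card R : ℝ) ^ 2 * (∑ w, ∑ d, π d * ‖K w d‖) ^ 2 := by ring
    _ ≤ (Fintype.card R : ℝ) ^ 2 * (Fintype.card R * ∑ w, ∑ d, π d * ‖K w d‖ ^ 2) :=
        mul_le_mul_of_nonneg_left s4 (by positivity)
    _ = (Fintype.card R : ℝ) ^ 3 * ∑ w, ∑ d, π d * ‖K w d‖ ^ 2 := by ring
    _ ≤ _ := mul_le_mul_of_nonneg_left (sum_le_sum fun w _ => s2 w) (by positivity)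

end Pool.Agent.MP_154433_an.T7W.Ag
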