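import Pool.Agent.MP_154433_an.t7w.AgB
import Pool.Agent.MP_154433_an.h31.Samp

/-! Agreement theorem, part C: the induction step and the wrap-around. -/

set_option autoImplicit false
set_option linter.unusedSectionVars false

open Finset
open scoped BigOperators ComplexConjugate

namespace Pool.Agent.MP_154433_an.T7W.Ag

variable {R : Type} [CommRing R] [Fintype R] [DecidableEq R] (ψ : AddChar R ℂ)

/-- the values on `X` are predicted from an ancestor with weight `δ` -/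
def Pred (θ : R → R) (X : Finset R) {T D : Type} [Fintype T] (μ : T → ℝ) (σ : T → R)
    (ev : D → T → R) (δ : ℝ) : Prop :=
  ∃ φ : R → D, δ * Fintype.card R ≤ ∑ w, ∑ J, μ J * ok θ X (σ J) (fun w => ev (φ w) J) w

lemma step {π : R → ℝ} (hπ : PW π) {k : ℕ} {B : ℝ} (hB : ∑ t, ‖ft ψ π t‖ ^ k ≤ B) {κ δ τ : ℝ}
    (hκ : 0 < κ) (hδ : 0 < δ) (hτ : τ = κ ^ 4 * δ ^ 4) (τ1 : τ ≤ 1) {T D : Type} [Fintype T]
    {μ : T → ℝ} (hμ : PW μ) (σ : T → R) (ev : D → T → R) (m L : ℕ) {Lg : ℝ}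
    (hc : (Fintype.card (T × R × R) : ℝ) ≤ Real.exp Lg) (m0 : 0 < m)
    (hm : 64 * (Lg + 2) ≤ (τ / 8) ^ 2 * m) (L0 : 0 < L)
    (hL : 2 * B / (((τ / 4) ^ 2 / 2) ^ k * (τ / 4) ^ 2) ≤ L) :
    ∃ ev' : R × D × (Fin m → R × D) × Fin L → T × R → R, ∀ (ρ G : R → ℂ) (θ : R → R)
      (X : Finset R), (∀ d, ‖ρ d‖ ≤ 1) → (∀ y, ‖G y‖ ≤ 1) → Rich ψ π ρ θ G κ X →
      Pred θ X μ σ ev δ →
      Pred θ X (fun x : T × R => μ x.1 * π x.2) (fun x => σ x.1 + x.2) ev' (τ / (2 * L)) := by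
  classical
  have n0 : (0 : ℝ) < Fintype.card R := by exact_mod_cast Fintype.card_pos
  have τ0 : 0 < τ := by rw [hτ]; positivity
  have L0' : (0 : ℝ) < L := by exact_mod_cast L0
  let P : (Fin m → R × D) × T × R → Finset R := fun x => univ.filter fun a =>
    3 * τ / 8 ≤ ‖(m : ℂ)⁻¹ * ∑ r, ψ (x.2.2 * ev (x.1 r).2 x.2.1) * ψ (-((x.1 r).1 * a))‖
  obtain ⟨f, hf⟩ := list P L
  refine ⟨fun z x => ev z.2.1 x.1 + f z.2.2.2 (z.2.2.1, x.1, x.2 - z.1), ?_⟩
  rintro ρ G θ X hρ hG hX ⟨φ, hφ⟩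
  let θ' : T → R → R := fun J w => ev (φ w) J
  let Ψ : R → R → ℝ := fun w s' => ∑ x : T × R, μ x.1 * π x.2 * (ok θ X (σ x.1) (θ' x.1) (w + x.2) *
    ‖tr ψ π (θ' x.1) w (x.2 - s') (θ (w + x.2 + σ x.1) - θ' x.1 (w + s'))‖)
  have a1 : τ * Fintype.card R ≤ ∑ w, ∑ s', π s' * Ψ w s' := by
    have b0 : δ * Fintype.card R ≤ ∑ J, μ J * ∑ w, ok θ X (σ J) (θ' J) w := by
      rw [sum_comm] at hφ
      simpa only [mul_sum] using hφ
    have b1 : (δ * Fintype.card R) ^ 4 ≤ ∑ J, μ J * (∑ w, ok θ X (σ J) (θ' J) w) ^ 4 := by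
      calc (δ * Fintype.card R) ^ 4 = ((δ * Fintype.card R) ^ 2) ^ 2 := by ring
        _ ≤ (∑ J, μ J * (∑ w, ok θ X (σ J) (θ' J) w) ^ 2) ^ 2 := pow_le_pow_left₀ (by positivity)
            ((pow_le_pow_left₀ (by positivity) b0 2).trans (hμ.jen _)) 2
        _ ≤ ∑ J, μ J * ((∑ w, ok θ X (σ J) (θ' J) w) ^ 2) ^ 2 := hμ.jen _
        _ = _ := sum_congr rfl fun J _ => by ring
    refine le_of_mul_le_mul_left ?_ (pow_pos n0 3)
    calc (Fintype.card R : ℝ) ^ 3 * (τ * Fintype.card R) = κ ^ 4 * (δ * Fintype.card R) ^ 4 := by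
          rw [hτ]; ring
      _ ≤ κ ^ 4 * ∑ J, μ J * (∑ w, ok θ X (σ J) (θ' J) w) ^ 4 :=
          mul_le_mul_of_nonneg_left b1 (by positivity)
      _ = ∑ J, μ J * (κ ^ 4 * (∑ w, ok θ X (σ J) (θ' J) w) ^ 4) := by
          rw [mul_sum]
          exact sum_congr rfl fun J _ => by ring
      _ ≤ ∑ J, μ J * ((Fintype.card R : ℝ) ^ 3 * _) := sum_le_sum fun J _ =>
          mul_le_mul_of_nonneg_left (one ψ θ hπ hρ hG hX (σ J) (θ' J)) (hμ.nn J)
      _ = _ := by
          simp only [Ψ, Fintype.sum_prod_type, mul_sum]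
          rw [sum_comm]
          refine sum_congr rfl fun w _ => ?_
          rw [sum_comm]
          exact sum_congr rfl fun s' _ => sum_congr rfl fun J _ => sum_congr rfl fun s _ => by ring
  choose s0 hs0 using fun w => hπ.exists_ge (Ψ w)
  choose t _ ht using fun w => Mau.samp (P := T × R × R) π hπ.nn hπ.one
    (fun x d => ψ (x.2.1 * θ' x.1 (w + d)) * ψ (-(d * x.2.2)))
    (fun x d => by rw [norm_mul, nrm, nrm, mul_one]) (η := τ / 8) (by positivity) (by linarith) hc m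
    m0 hm
  let t' : R → Fin m → R × D := fun w r => (t w r, φ (w + t w r))
  have a2 : ∀ w J u a, τ / 2 ≤ ‖tr ψ π (θ' J) w u a‖ → ∃ i, f i (t' w, J, u) = a := by
    intro w J u a ha
    have c1 : ∀ b, ‖(m : ℂ)⁻¹ * ∑ r, ψ (u * ev (t' w r).2 J) * ψ (-((t' w r).1 * b)) -
        tr ψ π (θ' J) w u b‖ ≤ τ / 8 := fun b => ht w (J, u, b)
    refine hf (t' w, J, u) ?_ a (mem_filter.2 ⟨mem_univ _, ?_⟩)
    · have := peak ψ hπ hB (τ := τ / 4) (by positivity) (fun d => ψ (u * θ' J (w + d)))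
        (fun d => (nrm ψ _).le) (P (t' w, J, u)) fun b hb => by
          have c2 := (mem_filter.1 hb).2
          have c3 := (norm_sub_norm_le _ _).trans (c1 b)
          change τ / 4 ≤ ‖tr ψ π (θ' J) w u b‖
          linarith
      exact_mod_cast this.trans hL
    · have c3 := (norm_sub_norm_le _ _).trans ((norm_sub_rev _ _).trans_le (c1 a))
      linarith
  have hw := hμ.prod hπ
  choose i hi using fun w => pig (fun x : T × R => μ x.1 * π x.2) hw.nn L0
    (fun x => (w + x.2 + σ x.1 ∈ X ∧ θ (w + x.2 + σ x.1) = θ' x.1 (w + x.2)) ∧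
      τ / 2 ≤ ‖tr ψ π (θ' x.1) w (x.2 - s0 w) (θ (w + x.2 + σ x.1) - θ' x.1 (w + s0 w))‖)
    (fun i x => w + (σ x.1 + x.2) ∈ X ∧ θ (w + (σ x.1 + x.2)) =
      ev (φ (w + s0 w)) x.1 + f i (t' w, x.1, x.2 - s0 w))
    (fun x hx => by
      obtain ⟨i, hi⟩ := a2 w _ _ _ hx.2
      have e : w + (σ x.1 + x.2) = w + x.2 + σ x.1 := by ring
      refine ⟨i, by rw [e]; exact hx.1.1, ?_⟩
      rw [hi, e]
      simp [θ'])
  refine ⟨fun w => (s0 w, φ (w + s0 w), t' w, i w), ?_⟩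
  have a3 : ∀ w, Ψ w (s0 w) ≤ τ / 2 + L * ∑ x : T × R, μ x.1 * π x.2 *
      ok θ X (σ x.1 + x.2) (fun w => ev (φ (w + s0 w)) x.1 + f (i w) (t' w, x.1, x.2 - s0 w)) w := by
    intro w
    refine le_trans ?_ (add_le_add le_rfl (hi w))
    have e : ∀ g : T × R → ℝ, τ / 2 + ∑ x : T × R, μ x.1 * π x.2 * g x =
        ∑ x : T × R, μ x.1 * π x.2 * (τ / 2 + g x) := fun g => by
      simp only [mul_add, sum_add_distrib, ← sum_mul, hw.one, one_mul]
    rw [e]
    refine sum_le_sum fun x _ => mul_le_mul_of_nonneg_left ?_ (hw.nn x)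
    have c1 : ‖tr ψ π (θ' x.1) w (x.2 - s0 w) (θ (w + x.2 + σ x.1) - θ' x.1 (w + s0 w))‖ ≤ 1 :=
      hπ.norm_le_one fun d => by rw [norm_mul, nrm, nrm, mul_one]
    unfold ok
    by_cases q1 : w + x.2 + σ x.1 ∈ X ∧ θ (w + x.2 + σ x.1) = θ' x.1 (w + x.2)
    · rw [if_pos q1, one_mul]
      by_cases q2 : τ / 2 ≤
          ‖tr ψ π (θ' x.1) w (x.2 - s0 w) (θ (w + x.2 + σ x.1) - θ' x.1 (w + s0 w))‖
      · rw [if_pos ⟨q1, q2⟩]
        linarith
      · rw [if_neg fun h => q2 h.2]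
        linarith
    · rw [if_neg q1, if_neg fun h => q1 h.1]
      linarith
  have a4 := a1.trans (sum_le_sum fun w _ => (hs0 w).trans (a3 w))
  rw [sum_add_distrib, sum_const, card_univ, nsmul_eq_mul, ← mul_sum] at a4
  rw [div_mul_eq_mul_div, div_le_iff₀ (by positivity)]
  linarith

lemma one_le {π : R → ℝ} (hπ : PW π) {k : ℕ} {B : ℝ} (hB : ∑ t, ‖ft ψ π t‖ ^ k ≤ B) : 1 ≤ B := by
  refine le_trans ?_ ((single_le_sum (f := fun t => ‖ft ψ π t‖ ^ k) (fun _ _ => by positivity)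
    (mem_univ 0)).trans hB)
  have : ft ψ π 0 = 1 := by
    simp only [ft, mul_zero, AddChar.map_zero_eq_one, mul_one]
    exact_mod_cast hπ.one
  simp [this]

lemma wrap (hψ : ψ.IsPrimitive) {π : R → ℝ} (hπ : PW π) {k : ℕ} {B : ℝ}
    (hB : ∑ t, ‖ft ψ π t‖ ^ k ≤ B) {T D : Type} [Fintype T] {μ : T → ℝ} (hμ : PW μ) (σ : T → R)
    (hft : ∀ t, ∑ J, (μ J : ℂ) * ψ (σ J * t) = ft ψ π t ^ k) (ev : D → T → R) {δ : ℝ} (hδ : 0 < δ)
    (L : ℕ) (hL : 2 / δ ≤ L) :
    ∃ ev' : R × D × Fin L → R → R, ∀ (θ : R → R) (X : Finset R), Pred θ X μ σ ev δ →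
      ∃ z, δ / (2 * B * L) * Fintype.card R ≤ (univ.filter fun y => y ∈ X ∧ θ y = ev' z y).card := by
  classical
  have n0 : (0 : ℝ) < Fintype.card R := by exact_mod_cast Fintype.card_pos
  have B1 := one_le ψ hπ hB
  have L0' : (0 : ℝ) < L := lt_of_lt_of_le (by positivity) hL
  have L0 : 0 < L := by exact_mod_cast L0'
  let r : R → ℝ := fun n => ∑ J, μ J * if σ J = n then 1 else 0
  let g : D → R → R → ℝ := fun z n a => ∑ J, μ J * if σ J = n ∧ ev z J = a then 1 else 0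
  have r1 : ∑ n, r n = 1 := by
    simp only [r]
    rw [sum_comm]
    refine Eq.trans (sum_congr rfl fun J _ => ?_) hμ.one
    rw [← mul_sum, sum_ite_eq, if_pos (mem_univ _), mul_one]
  have g0 : ∀ z n a, 0 ≤ g z n a := fun z n a =>
    sum_nonneg fun J _ => mul_nonneg (hμ.nn J) (by split_ifs <;> norm_num)
  have g1 : ∀ z n, ∑ a, g z n a = r n := by
    intro z n
    simp only [g, r]
    rw [sum_comm]
    refine sum_congr rfl fun J _ => ?_
    rw [← mul_sum]
    by_cases h : σ J = n <;> simp [h]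
  have g2 : ∀ z n a, g z n a ≤ r n := fun z n a =>
    (single_le_sum (fun a _ => g0 z n a) (mem_univ a)).trans_eq (g1 z n)
  have r2 : ∀ n, Fintype.card R * r n ≤ B := by
    intro n
    calc Fintype.card R * r n ≤ ‖((Fintype.card R * r n : ℝ) : ℂ)‖ := by
          rw [Complex.norm_real]
          exact le_abs_self _
      _ = ‖∑ t, ft ψ π t ^ k * ψ (-(n * t))‖ := by
          congr 1
          simp only [← hft, sum_mul, r]
          rw [sum_comm]
          push_cast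
          rw [mul_sum]
          refine sum_congr rfl fun J _ => ?_
          have e := AddChar.sum_mulShift (σ J - n) hψ
          have e2 : ∀ t, (μ J : ℂ) * ψ (σ J * t) * ψ (-(n * t)) = μ J * ψ (t * (σ J - n)) := by
            intro t
            rw [mul_assoc, ← AddChar.map_add_eq_mul]
            congr 2
            ring
          simp only [e2, ← mul_sum, e, sub_eq_zero]
          split_ifs <;> simp [mul_comm]
      _ ≤ ∑ t, ‖ft ψ π t‖ ^ k := (norm_sum_le _ _).trans (le_of_eq (sum_congr rfl fun t _ => by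
          rw [norm_mul, nrm, mul_one, norm_pow]))
      _ ≤ B := hB
  let P : D × R → Finset R := fun x => univ.filter fun a => δ / 2 * r x.2 < g x.1 x.2 a
  have hP : ∀ x, (P x).card ≤ L := by
    intro x
    rcases (P x).eq_empty_or_nonempty with h | ⟨a, ha⟩
    · simp [h]
    · have c1 : (P x).card * (δ / 2 * r x.2) ≤ r x.2 := by
        calc (P x).card * (δ / 2 * r x.2) = ∑ _a ∈ P x, δ / 2 * r x.2 := by
              rw [sum_const, nsmul_eq_mul]
          _ ≤ ∑ a ∈ P x, g x.1 x.2 a := sum_le_sum fun a ha => (mem_filter.1 ha).2.le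
          _ ≤ ∑ a, g x.1 x.2 a := sum_le_sum_of_subset_of_nonneg (subset_univ _)
              fun a _ _ => g0 _ _ a
          _ = _ := g1 _ _
      have c0 : 0 ≤ r x.2 := (g0 _ _ a).trans (g2 x.1 x.2 a)
      have c2 : 0 < r x.2 :=
        (lt_of_le_of_lt (by positivity) (mem_filter.1 ha).2).trans_le (g2 x.1 x.2 a)
      have c3 : (P x).card * (δ / 2) ≤ 1 := by
        refine le_of_mul_le_mul_right ?_ c2
        rw [mul_assoc, one_mul]
        exact c1
      have c4 : ((P x).card : ℝ) ≤ 2 / δ := by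
        rw [le_div_iff₀ hδ]
        linarith
      exact_mod_cast c4.trans hL
  obtain ⟨f, hf⟩ := list P L
  refine ⟨fun z y => f z.2.2 (z.2.1, y - z.1), ?_⟩
  rintro θ X ⟨φ, hφ⟩
  obtain ⟨w, -, hw⟩ := exists_le_of_sum_le (s := univ) univ_nonempty (f := fun _ : R => δ)
    (g := fun w => ∑ J, μ J * ok θ X (σ J) (fun w => ev (φ w) J) w) (by
      rw [sum_const, card_univ, nsmul_eq_mul, mul_comm]
      exact hφ)
  obtain ⟨i, hi⟩ := pig (fun _ : R => (1 : ℝ)) (fun _ => zero_le_one) L0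
    (fun n => w + n ∈ X ∧ θ (w + n) ∈ P (φ w, n)) (fun i n => w + n ∈ X ∧ θ (w + n) = f i (φ w, n))
    (fun n hn => (hf _ (hP _) _ hn.2).imp fun i hi => ⟨hn.1, hi.symm⟩)
  refine ⟨(w, φ w, i), ?_⟩
  have a1 : ∑ J, μ J * ok θ X (σ J) (fun w => ev (φ w) J) w =
      ∑ n, if w + n ∈ X then g (φ w) n (θ (w + n)) else 0 := by
    have : ∀ n, (if w + n ∈ X then g (φ w) n (θ (w + n)) else 0) = ∑ J, if σ J = n then
        μ J * ok θ X (σ J) (fun w => ev (φ w) J) w else 0 := by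
      intro n
      by_cases h : w + n ∈ X
      · rw [if_pos h]
        refine sum_congr rfl fun J _ => ?_
        by_cases h1 : σ J = n
        · simp [ok, h1, h, eq_comm]
        · simp [h1]
      · rw [if_neg h]
        refine (sum_eq_zero fun J _ => ?_).symm
        by_cases h1 : σ J = n
        · simp [ok, h1, h]
        · simp [h1]
    simp only [this]
    rw [sum_comm]
    exact sum_congr rfl fun J _ => by rw [sum_ite_eq, if_pos (mem_univ _)]
  have a2 : δ * Fintype.card R ≤ ∑ n, (δ / 2 * Fintype.card R * r n +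
      B * (1 * if w + n ∈ X ∧ θ (w + n) ∈ P (φ w, n) then 1 else 0)) := by
    rw [a1] at hw
    refine (mul_le_mul_of_nonneg_right hw n0.le).trans ?_
    rw [sum_mul]
    refine sum_le_sum fun n _ => ?_
    have c0 : 0 ≤ r n := (g0 (φ w) n 0).trans (g2 _ _ _)
    have c1 : 0 ≤ δ / 2 * Fintype.card R * r n := by positivity
    by_cases h : w + n ∈ X
    · rw [if_pos h]
      by_cases h1 : θ (w + n) ∈ P (φ w, n)
      · rw [if_pos ⟨h, h1⟩]
        have := mul_le_mul_of_nonneg_right (g2 (φ w) n (θ (w + n))) n0.le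
        have := r2 n
        linarith
      · rw [if_neg fun q => h1 q.2]
        have c2 : g (φ w) n (θ (w + n)) ≤ δ / 2 * r n :=
          not_lt.1 fun q => h1 (mem_filter.2 ⟨mem_univ _, q⟩)
        have := mul_le_mul_of_nonneg_right c2 n0.le
        linarith
    · rw [if_neg h, if_neg fun q => h q.1]
      linarith
  rw [sum_add_distrib, ← mul_sum, r1, ← mul_sum] at a2
  have a3 : ((univ.filter fun y => y ∈ X ∧ θ y = f i (φ w, y - w)).card : ℝ) =
      ∑ n, 1 * if w + n ∈ X ∧ θ (w + n) = f i (φ w, n) then (1 : ℝ) else 0 := by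
    rw [card_filter]
    push_cast
    refine (Fintype.sum_equiv (Equiv.addLeft w) _ _ fun n => ?_).symm
    simp only [Equiv.coe_addLeft, add_sub_cancel_left, one_mul]
  have a4 := mul_le_mul_of_nonneg_left hi (le_trans zero_le_one B1)
  rw [← a3] at a4
  rw [div_mul_eq_mul_div, div_le_iff₀ (by positivity)]
  linarith

end Pool.Agent.MP_154433_an.T7W.Ag
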