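import Pool.Agent.MP_154433_an.t7w.Defs
import Pool.Agent.MP_154433_an.t7w.AgC

/-! Agreement theorem: the induction and the statement. -/

set_option autoImplicit false

open Finset
open scoped BigOperators ComplexConjugate

namespace Pool.Agent.MP_154433_an.T7W

namespace Ag

lemma levels (k : ℕ) (B : ℝ) {κ δ0 : ℝ} (hκ : 0 < κ) (κ1 : κ ≤ 1) (h0 : 0 < δ0) (h1 : δ0 ≤ 1)
    (j : ℕ) : ∃ δ C : ℝ, 0 < δ ∧ δ ≤ 1 ∧ 0 ≤ C ∧
    ∀ (R : Type) [CommRing R] [Fintype R] [DecidableEq R] (ψ : AddChar R ℂ) (π : R → ℝ), PW π →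
      ∑ t, ‖ft ψ π t‖ ^ k ≤ B →
      ∃ (T : Type) (_ : Fintype T) (μ : T → ℝ) (σ : T → R) (D : Type) (_ : Fintype D)
        (ev : D → T → R), PW μ ∧ Fintype.card T ≤ Fintype.card R ^ j ∧
        (∀ t, ∑ J, (μ J : ℂ) * ψ (σ J * t) = ft ψ π t ^ j) ∧
        (Fintype.card D : ℝ) ≤ Real.exp (C * (Real.log (Fintype.card R) + 1) ^ (j + 1)) ∧
        ∀ (ρ G : R → ℂ) (θ : R → R) (X : Finset R), (∀ d, ‖ρ d‖ ≤ 1) → (∀ y, ‖G y‖ ≤ 1) →
          Rich ψ π ρ θ G κ X → δ0 * Fintype.card R ≤ X.card → Pred θ X μ σ ev δ := by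
  induction j with
  | zero =>
    refine ⟨δ0, 1, h0, h1, zero_le_one, fun R _ _ _ ψ π hπ hB => ⟨Unit, inferInstance, fun _ => 1,
      fun _ => 0, R, inferInstance, fun a _ => a, ⟨fun _ => zero_le_one, by simp⟩, by simp,
      fun t => by simp, ?_, fun ρ G θ X _ _ _ hX => ⟨θ, hX.trans (le_of_eq ?_)⟩⟩⟩
    · have n0 : (0 : ℝ) < Fintype.card R := by exact_mod_cast Fintype.card_pos
      rw [zero_add, pow_one, one_mul, Real.exp_add, Real.exp_log n0]
      exact le_mul_of_one_le_right n0.le (Real.one_le_exp zero_le_one)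
    · simp [ok]
  | succ j ih =>
    obtain ⟨δ, C, d0, d1, C0, ih⟩ := ih
    obtain ⟨τ, hτ⟩ : ∃ τ, τ = κ ^ 4 * δ ^ 4 := ⟨_, rfl⟩
    have τ0 : 0 < τ := by rw [hτ]; positivity
    have τ1 : τ ≤ 1 := by
      rw [hτ]
      exact mul_le_one₀ (pow_le_one₀ hκ.le κ1) (by positivity) (pow_le_one₀ d0.le d1)
    obtain ⟨L, L0, hL⟩ : ∃ L : ℕ, 0 < L ∧ 2 * B / (((τ / 4) ^ 2 / 2) ^ k * (τ / 4) ^ 2) ≤ L :=
      ⟨_ + 1, Nat.succ_pos _, (Nat.le_ceil _).trans (Nat.cast_le.2 (Nat.le_succ _))⟩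
    have L1 : (1 : ℝ) ≤ L := by exact_mod_cast L0
    obtain ⟨c, hc⟩ : ∃ c : ℝ, c = 64 * (j + 4) / (τ / 8) ^ 2 := ⟨_, rfl⟩
    have c0 : 0 < c := by rw [hc]; positivity
    refine ⟨τ / (2 * L), (c + 2) * (1 + C) + L, by positivity,
      (div_le_one (by positivity)).2 (by linarith), by positivity, fun R _ _ _ ψ π hπ hB => ?_⟩
    obtain ⟨T, _, μ, σ, D, _, ev, hμ, hT, hft, hD, hP⟩ := ih R ψ π hπ hB
    have n1 : (1 : ℝ) ≤ Fintype.card R := by exact_mod_cast Fintype.card_pos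
    obtain ⟨x, hx⟩ : ∃ x, x = Real.log (Fintype.card R) + 1 := ⟨_, rfl⟩
    have x1 : 1 ≤ x := by linarith [Real.log_nonneg n1]
    have nx : (Fintype.card R : ℝ) ≤ Real.exp x := by
      rw [hx, Real.exp_add, Real.exp_log (by linarith)]
      exact le_mul_of_one_le_right (by linarith) (Real.one_le_exp zero_le_one)
    rw [← hx] at hD ⊢
    have m1 := Nat.le_ceil (c * x)
    have m2 := (Nat.ceil_lt_add_one (show 0 ≤ c * x by positivity)).le
    obtain ⟨ev', he⟩ := step ψ hπ hB hκ d0 hτ τ1 hμ σ ev ⌈c * x⌉₊ L (Lg := (j + 2 : ℕ) * x) (by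
        rw [Fintype.card_prod, Fintype.card_prod, Real.exp_nat_mul, pow_add, sq]
        have : (Fintype.card T : ℝ) ≤ (Fintype.card R : ℝ) ^ j := by exact_mod_cast hT
        push_cast
        exact mul_le_mul (this.trans (by gcongr)) (by gcongr) (by positivity) (by positivity))
      (Nat.ceil_pos.2 (by positivity)) (by
        calc 64 * ((j + 2 : ℕ) * x + 2) ≤ 64 * (j + 4) * x := by push_cast; linarith
          _ = (τ / 8) ^ 2 * (c * x) := by rw [hc]; field_simp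
          _ ≤ _ := by gcongr) L0 hL
    refine ⟨T × R, inferInstance, _, _, _, inferInstance, ev', hμ.prod hπ, ?_, fun t => ?_, ?_,
      fun ρ G θ X a b c d => he ρ G θ X a b c (hP ρ G θ X a b c d)⟩
    · rw [Fintype.card_prod, pow_succ]
      exact Nat.mul_le_mul_right _ hT
    · rw [pow_succ, ← hft, ft, sum_mul_sum, Fintype.sum_prod_type]
      refine sum_congr rfl fun J _ => sum_congr rfl fun s _ => ?_
      rw [add_mul, AddChar.map_add_eq_mul]
      push_cast
      ring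
    · have p1 : 1 ≤ x ^ (j + 1) := one_le_pow₀ x1
      have p2 : x ≤ x ^ (j + 1) := le_self_pow₀ x1 (Nat.succ_ne_zero j)
      calc _ = (Fintype.card R * Fintype.card D : ℝ) ^ (⌈c * x⌉₊ + 1) * L := by
            simp only [Fintype.card_prod, Fintype.card_fun, Fintype.card_fin]
            push_cast
            ring
        _ ≤ (Real.exp x * Real.exp (C * x ^ (j + 1))) ^ (⌈c * x⌉₊ + 1) * Real.exp L := by
            gcongr
            linarith [Real.add_one_le_exp (L : ℝ)]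
        _ = Real.exp ((⌈c * x⌉₊ + 1 : ℕ) * (x + C * x ^ (j + 1)) + L) := by
            rw [Real.exp_add, Real.exp_nat_mul, Real.exp_add]
        _ ≤ _ := by
            refine Real.exp_le_exp.2 ?_
            have b1 : ((⌈c * x⌉₊ + 1 : ℕ) : ℝ) ≤ (c + 2) * x := by push_cast; linarith
            have b2 : x + C * x ^ (j + 1) ≤ (1 + C) * x ^ (j + 1) := by linarith
            have b3 := mul_le_mul b1 b2 (by positivity) (by positivity)
            have b4 := mul_le_mul_of_nonneg_left (one_le_pow₀ (n := j + 1 + 1) x1)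
              (le_trans zero_le_one L1)
            calc _ ≤ (c + 2) * x * ((1 + C) * x ^ (j + 1)) + L * x ^ (j + 1 + 1) := by linarith
              _ = _ := by ring

end Ag

open Ag in
theorem agree : AgreeS := by
  classical
  intro k B δ' hδ'
  obtain ⟨δ, hδ, δ1, δ2⟩ : ∃ δ : ℝ, 0 < δ ∧ δ ≤ 1 ∧ δ ≤ δ' :=
    ⟨min 1 δ', by positivity, min_le_left _ _, min_le_right _ _⟩
  have q1 : δ ^ 2 ≤ 1 := pow_le_one₀ hδ.le δ1
  obtain ⟨δk, C, d0, -, C0, h⟩ := levels k B (κ := δ ^ 2 / 4) (δ0 := δ ^ 2 / 2) (by positivity)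
    (by linarith) (by positivity) (by linarith) k
  obtain ⟨L, hL⟩ : ∃ L : ℕ, 2 / δk ≤ L := ⟨_, Nat.le_ceil _⟩
  have L0 : (0 : ℝ) < L := lt_of_lt_of_le (by positivity) hL
  refine ⟨δk / (2 * max B 1 * L), 1 + C + L, by positivity, by positivity, fun p _ S hS hB => ?_⟩
  have s0 : (0 : ℝ) < S.card := by exact_mod_cast hS.card_pos
  let π : ZMod p → ℝ := fun d => if d ∈ S then (S.card : ℝ)⁻¹ else 0
  have hπ : PW π := ⟨fun d => by simp only [π]; split_ifs <;> positivity, by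
    simp only [π]
    rw [sum_ite_mem, univ_inter, sum_const, nsmul_eq_mul, mul_inv_cancel₀ s0.ne']⟩
  have ex : ∀ f : ZMod p → ℂ, 𝔼 d ∈ S, f d = ∑ d, (π d : ℂ) * f d := by
    intro f
    have : ∀ d, (π d : ℂ) * f d = if d ∈ S then (S.card : ℂ)⁻¹ * f d else 0 := fun d => by
      simp only [π]
      split_ifs <;> simp
    simp only [this]
    rw [sum_ite_mem, univ_inter, ← mul_sum, expect_eq_sum_div_card, div_eq_inv_mul]
  have hB' : ∑ t, ‖ft (ZMod.stdAddChar (N := p)) π t‖ ^ k ≤ B := by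
    simpa only [Hyp, ex, ec, ft] using hB
  obtain ⟨T, _, μ, σ, D, _, ev, hμ, -, hft, hD, hP⟩ := h (ZMod p) _ π hπ hB'
  obtain ⟨ev', he⟩ := wrap _ (ZMod.isPrimitive_stdAddChar p) hπ hB' hμ σ hft ev d0 L hL
  have B1' := one_le _ hπ hB'
  have n1 : (1 : ℝ) ≤ p := by exact_mod_cast NeZero.pos p
  rw [ZMod.card] at hD he
  refine ⟨univ.image ev', ?_, fun ρ G θ H hρ hG hH hf => ?_⟩
  · obtain ⟨x, hx⟩ : ∃ x, x = Real.log p + 1 := ⟨_, rfl⟩
    have x1 : 1 ≤ x := by linarith [Real.log_nonneg n1]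
    have nx : (p : ℝ) ≤ Real.exp x := by
      rw [hx, Real.exp_add, Real.exp_log (by linarith)]
      exact le_mul_of_one_le_right (by linarith) (Real.one_le_exp zero_le_one)
    rw [← hx] at hD ⊢
    have p2 : x ≤ x ^ (k + 1) := le_self_pow₀ x1 (Nat.succ_ne_zero k)
    calc _ ≤ (Fintype.card (ZMod p × D × Fin L) : ℝ) := by exact_mod_cast card_image_le
      _ = p * (Fintype.card D * L) := by
          simp only [Fintype.card_prod, Fintype.card_fin, ZMod.card]
          push_cast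
          rfl
      _ ≤ Real.exp x * (Real.exp (C * x ^ (k + 1)) * Real.exp L) := by
          gcongr
          linarith [Real.add_one_le_exp (L : ℝ)]
      _ ≤ _ := by
          rw [← Real.exp_add, ← Real.exp_add]
          refine Real.exp_le_exp.2 ?_
          have := mul_le_mul_of_nonneg_left (x1.trans p2) L0.le
          linarith
  · obtain ⟨X, x1, x2, x3⟩ := rich (ZMod.stdAddChar (N := p)) θ hπ hρ hG hH hδ (by
      have e : form S ρ G θ H = (p : ℂ)⁻¹ * ∑ y, ∑ d, (π d : ℂ) *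
          (ρ d * G y * ZMod.stdAddChar (d * θ y) * H (y + d)) := by
        simp only [form, ex, ec]
        rw [expect_eq_sum_div_card, card_univ, ZMod.card, div_eq_inv_mul]
      rw [e, norm_mul, norm_inv, Complex.norm_natCast, ← div_eq_inv_mul,
        le_div_iff₀ (by linarith)] at hf
      rw [ZMod.card]
      exact (mul_le_mul_of_nonneg_right δ2 (by linarith)).trans hf)
    obtain ⟨z, hz⟩ := he θ X (hP ρ G θ X hρ hG x3 x2)
    refine ⟨ev' z, mem_image.2 ⟨z, mem_univ _, rfl⟩, ?_⟩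
    rw [max_eq_left B1']
    refine hz.trans (Nat.cast_le.2 (card_le_card fun y hy => ?_))
    exact mem_filter.2 ⟨mem_univ _, x1 y (mem_filter.1 hy).2.1, (mem_filter.1 hy).2.2⟩

end Pool.Agent.MP_154433_an.T7W
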